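import Mathlib

/-! Lower bound for binomial coefficients near the middle, upper bound for the central one. -/

set_option autoImplicit false

namespace Pool.Agent.L7h40.UC

/-- `(2 m + 1) C(2 m, m) ^ 2 ≤ 16 ^ m` -/
lemma central_upper (m : ℕ) : (2 * m + 1) * (Nat.centralBinom m) ^ 2 ≤ 16 ^ m := by
  induction m with
  | zero => simp
  | succ m ih =>
    have h := Nat.succ_mul_centralBinom_succ m
    set c := Nat.centralBinom m
    set c' := Nat.centralBinom (m + 1)
    have h2 : (m + 1) ^ 2 * ((2 * (m + 1) + 1) * c' ^ 2) =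
        (2 * m + 3) * (2 * (2 * m + 1) * c) ^ 2 := by
      rw [← h]; ring
    have h3 : (2 * m + 3) * (2 * (2 * m + 1) * c) ^ 2 ≤ (m + 1) ^ 2 * 16 ^ (m + 1) := by
      have e1 : (2 * m + 3) * (2 * (2 * m + 1) * c) ^ 2 =
          4 * ((2 * m + 3) * (2 * m + 1)) * ((2 * m + 1) * c ^ 2) := by ring
      rw [e1]
      calc 4 * ((2 * m + 3) * (2 * m + 1)) * ((2 * m + 1) * c ^ 2)
          ≤ 4 * (4 * (m + 1) ^ 2) * 16 ^ m := by
            apply Nat.mul_le_mul _ ih
            apply Nat.mul_le_mul_left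
            nlinarith
        _ = (m + 1) ^ 2 * 16 ^ (m + 1) := by ring
    rw [← h2] at h3
    exact Nat.le_of_mul_le_mul_left h3 (by positivity)

/-- `16 ^ m ≤ 4 m C(2 m, m) ^ 2` -/
lemma central_lower (m : ℕ) (hm : 1 ≤ m) : 16 ^ m ≤ 4 * m * (Nat.centralBinom m) ^ 2 := by
  induction m, hm using Nat.le_induction with
  | base => simp [Nat.centralBinom, Nat.choose]
  | succ m hm ih =>
    have h := Nat.succ_mul_centralBinom_succ m
    set c := Nat.centralBinom m
    set c' := Nat.centralBinom (m + 1)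
    have h2 : (m + 1) * (4 * (m + 1) * c' ^ 2) = 4 * (2 * (2 * m + 1) * c) ^ 2 := by
      rw [← h]; ring
    have h3 : (m + 1) * 16 ^ (m + 1) ≤ 4 * (2 * (2 * m + 1) * c) ^ 2 := by
      calc (m + 1) * 16 ^ (m + 1) = 16 * (m + 1) * 16 ^ m := by ring
        _ ≤ 16 * (m + 1) * (4 * m * c ^ 2) := Nat.mul_le_mul_left _ ih
        _ = 64 * (m * (m + 1)) * c ^ 2 := by ring
        _ ≤ (16 * (2 * m + 1) ^ 2) * c ^ 2 := by
            apply Nat.mul_le_mul_right
            nlinarith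
        _ = 4 * (2 * (2 * m + 1) * c) ^ 2 := by ring
    rw [← h2] at h3
    exact Nat.le_of_mul_le_mul_left h3 (by positivity)

/-- the middle coefficient -/
lemma middle (a : ℕ) (ha : 1 ≤ a) :
    (2 : ℝ) ^ a / (2 * Real.sqrt a) ≤ (a.choose (a / 2) : ℝ) := by
  have key : ∀ (x c : ℝ) (n : ℕ), 0 < c → 1 ≤ n → x ^ 2 ≤ 4 * n * c ^ 2 →
      x / (2 * Real.sqrt n) ≤ c := by
    intro x c n hc hn h
    have hn0 : (0 : ℝ) < n := by exact_mod_cast hn
    have hs : 0 < Real.sqrt n := Real.sqrt_pos.2 hn0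
    rw [div_le_iff₀ (by positivity)]
    apply le_of_sq_le_sq _ (by positivity)
    calc x ^ 2 ≤ 4 * n * c ^ 2 := h
      _ = (c * (2 * Real.sqrt n)) ^ 2 := by
        rw [mul_pow, mul_pow, Real.sq_sqrt hn0.le]; ring
  apply key _ _ _ _ ha
  · obtain ⟨m, rfl | rfl⟩ := Nat.even_or_odd' a
    · have hm : 1 ≤ m := by omega
      have h := central_lower m hm
      have e : 2 * m / 2 = m := by omega
      rw [e]
      have h' : ((16 : ℝ)) ^ m ≤ 4 * m * ((2 * m).choose m : ℝ) ^ 2 := by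
        have := h
        unfold Nat.centralBinom at this
        exact_mod_cast this
      have hm0 : (0 : ℝ) ≤ m := Nat.cast_nonneg m
      calc ((2 : ℝ) ^ (2 * m)) ^ 2 = 16 ^ m := by
            rw [← pow_mul, mul_right_comm, pow_mul]; norm_num
        _ ≤ 4 * m * ((2 * m).choose m : ℝ) ^ 2 := h'
        _ ≤ 4 * ((2 * m : ℕ) : ℝ) * ((2 * m).choose m : ℝ) ^ 2 := by
            push_cast
            apply mul_le_mul_of_nonneg_right _ (by positivity)
            linarith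
    · have h := central_lower (m + 1) (by omega)
      have e : (2 * m + 1) / 2 = m := by omega
      rw [e]
      have h1 : Nat.centralBinom (m + 1) = 2 * (2 * m + 1).choose m := by
        unfold Nat.centralBinom
        have e2 : 2 * (m + 1) = (2 * m + 1) + 1 := by ring
        rw [e2, Nat.choose_succ_succ, Nat.choose_symm_half]
        ring
      rw [h1] at h
      have h' : ((16 : ℝ)) ^ (m + 1) ≤ 4 * (m + 1) * (2 * ((2 * m + 1).choose m : ℝ)) ^ 2 := by
        exact_mod_cast h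
      have hm0 : (0 : ℝ) ≤ m := Nat.cast_nonneg m
      have hc : (0 : ℝ) ≤ ((2 * m + 1).choose m : ℝ) ^ 2 := by positivity
      have e3 : ((2 : ℝ) ^ (2 * m + 1)) ^ 2 = 4 * 16 ^ m := by
        rw [← pow_mul, show (2 * m + 1) * 2 = 4 * m + 2 by ring, pow_add, pow_mul]; norm_num
        ring
      rw [e3]
      push_cast
      have e4 : (16 : ℝ) ^ (m + 1) = 4 * (4 * 16 ^ m) := by ring
      rw [e4] at h'
      nlinarith [mul_nonneg hm0 hc]
  · exact_mod_cast Nat.choose_pos (by omega)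

/-- one step -/
lemma step (a h : ℕ) (w : ℝ) (hh : h ≤ a) (hw : (a : ℝ) - 2 * h - 1 ≤ w * (h + 1)) :
    (a.choose (h + 1) : ℝ) ≤ a.choose h * Real.exp w := by
  have e : ((a.choose (h + 1) : ℝ)) * (h + 1) = a.choose h * ((a : ℝ) - h) := by
    have := Nat.choose_succ_right_eq a h
    have h2 : ((a.choose (h + 1) * (h + 1) : ℕ) : ℝ) = ((a.choose h * (a - h) : ℕ) : ℝ) := by
      rw [this]
    push_cast [Nat.cast_sub hh] at h2
    exact h2
  have hpos : (0 : ℝ) < (h : ℝ) + 1 := by positivity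
  have h3 : (a : ℝ) - h ≤ (h + 1) * Real.exp w := by
    have h4 : w + 1 ≤ Real.exp w := Real.add_one_le_exp w
    nlinarith
  have h5 : ((a.choose (h + 1) : ℝ)) * (h + 1) ≤ (a.choose h * Real.exp w) * (h + 1) := by
    rw [e]
    calc (a.choose h : ℝ) * ((a : ℝ) - h) ≤ a.choose h * ((h + 1) * Real.exp w) := by
          apply mul_le_mul_of_nonneg_left h3 (Nat.cast_nonneg _)
      _ = (a.choose h * Real.exp w) * (h + 1) := by ring
  exact le_of_mul_le_mul_right h5 hpos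

lemma steps (a m T : ℕ) (w : ℝ) (hw0 : 0 ≤ w) (hm : a ≤ 2 * m + 1) (hma : m ≤ a) (hT : T ≤ m)
    (hw : 2 * (T : ℝ) ≤ w * ((m : ℝ) - T + 1)) (t : ℕ) (ht : t ≤ T) :
    (a.choose m : ℝ) ≤ a.choose (m - t) * Real.exp (t * w) := by
  induction t with
  | zero => simp
  | succ t ih =>
    have ih := ih (by omega)
    have e : m - t = (m - (t + 1)) + 1 := by omega
    have h1 := step a (m - (t + 1)) w (by omega) (by
      have h2 : ((m - (t + 1) : ℕ) : ℝ) = (m : ℝ) - (t + 1) := by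
        rw [Nat.cast_sub (by omega)]; push_cast; ring
      rw [h2]
      have h3 : (a : ℝ) ≤ 2 * m + 1 := by exact_mod_cast hm
      have h4 : (t : ℝ) + 1 ≤ T := by exact_mod_cast ht
      nlinarith)
    rw [e] at ih
    calc (a.choose m : ℝ) ≤ a.choose (m - (t + 1) + 1) * Real.exp (t * w) := ih
      _ ≤ (a.choose (m - (t + 1)) * Real.exp w) * Real.exp (t * w) :=
          mul_le_mul_of_nonneg_right h1 (Real.exp_pos _).le
      _ = a.choose (m - (t + 1)) * Real.exp (((t + 1 : ℕ) : ℝ) * w) := by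
          rw [mul_assoc, ← Real.exp_add]
          push_cast
          ring_nf

lemma lower_half (K : ℝ) (hK : 0 < K) (a h : ℕ) (ha : 1 ≤ a) (hh : h ≤ a / 2)
    (hs : 4 * K ≤ Real.sqrt a) (hd : (a : ℝ) / 2 - h ≤ K * Real.sqrt a) :
    Real.exp (-(8 * K ^ 2)) / 2 * 2 ^ a / Real.sqrt a ≤ (a.choose h : ℝ) := by
  set m := a / 2 with hm
  have ha0 : (0 : ℝ) < a := by exact_mod_cast ha
  have hsq : Real.sqrt a * Real.sqrt a = a := Real.mul_self_sqrt ha0.le
  have hs0 : 0 < Real.sqrt a := Real.sqrt_pos.2 ha0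
  have hm1 : (a : ℝ) ≤ 2 * m + 1 := by
    have : a ≤ 2 * m + 1 := by omega
    exact_mod_cast this
  have hm2 : 2 * (m : ℝ) ≤ a := by
    have : 2 * m ≤ a := by omega
    exact_mod_cast this
  have hTc : ((m - h : ℕ) : ℝ) = (m : ℝ) - h := Nat.cast_sub hh
  have hT : ((m - h : ℕ) : ℝ) ≤ K * Real.sqrt a := by rw [hTc]; linarith
  have hwpos : 0 ≤ 8 * K / Real.sqrt a := by positivity
  have hKs : K * Real.sqrt a ≤ a / 4 := by nlinarith
  have hw : 2 * ((m - h : ℕ) : ℝ) ≤ 8 * K / Real.sqrt a * ((m : ℝ) - ((m - h : ℕ) : ℝ) + 1) := by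
    have h1 : (a : ℝ) / 4 ≤ (m : ℝ) - ((m - h : ℕ) : ℝ) + 1 := by linarith
    calc 2 * ((m - h : ℕ) : ℝ) ≤ 2 * (K * Real.sqrt a) := by linarith
      _ = 8 * K / Real.sqrt a * (a / 4) := by
          have e9 : (a : ℝ) / 4 = (Real.sqrt a * Real.sqrt a) / 4 := by rw [hsq]
          rw [e9]; field_simp; ring
      _ ≤ _ := mul_le_mul_of_nonneg_left h1 hwpos
  have h1 := steps a m (m - h) (8 * K / Real.sqrt a) hwpos (by omega) (by omega) (by omega) hw
    (m - h) le_rfl
  have e1 : m - (m - h) = h := by omega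
  rw [e1] at h1
  have h2 : ((m - h : ℕ) : ℝ) * (8 * K / Real.sqrt a) ≤ 8 * K ^ 2 := by
    calc ((m - h : ℕ) : ℝ) * (8 * K / Real.sqrt a) ≤ (K * Real.sqrt a) * (8 * K / Real.sqrt a) :=
          mul_le_mul_of_nonneg_right hT hwpos
      _ = 8 * K ^ 2 := by field_simp
  have h3 : (a.choose m : ℝ) ≤ a.choose h * Real.exp (8 * K ^ 2) :=
    h1.trans (mul_le_mul_of_nonneg_left (Real.exp_le_exp.2 h2) (Nat.cast_nonneg _))
  have h4 := middle a ha
  rw [Real.exp_neg]
  have hE : 0 < Real.exp (8 * K ^ 2) := Real.exp_pos _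
  calc (Real.exp (8 * K ^ 2))⁻¹ / 2 * 2 ^ a / Real.sqrt a
      = (Real.exp (8 * K ^ 2))⁻¹ * (2 ^ a / (2 * Real.sqrt a)) := by field_simp
    _ ≤ (Real.exp (8 * K ^ 2))⁻¹ * (a.choose h * Real.exp (8 * K ^ 2)) :=
        mul_le_mul_of_nonneg_left (h4.trans h3) (by positivity)
    _ = a.choose h := by field_simp

theorem bin1 (K : ℝ) (hK : 0 < K) : ∃ κ : ℝ, 0 < κ ∧ ∀ a h : ℕ, 1 ≤ a → h ≤ a →
    |(h : ℝ) - a / 2| ≤ K * Real.sqrt a → κ * 2 ^ a / Real.sqrt a ≤ (a.choose h : ℝ) := by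
  set N : ℕ := ⌈16 * K ^ 2⌉₊ with hN
  refine ⟨min (Real.exp (-(8 * K ^ 2)) / 2) (1 / 2 ^ N), by positivity, ?_⟩
  intro a h ha hh hd
  have ha0 : (0 : ℝ) < a := by exact_mod_cast ha
  have hs0 : 0 < Real.sqrt a := Real.sqrt_pos.2 ha0
  by_cases hs : 4 * K ≤ Real.sqrt a
  · have hle : min (Real.exp (-(8 * K ^ 2)) / 2) (1 / 2 ^ N) * 2 ^ a / Real.sqrt a ≤
        Real.exp (-(8 * K ^ 2)) / 2 * 2 ^ a / Real.sqrt a := by
      apply div_le_div_of_nonneg_right _ hs0.le
      apply mul_le_mul_of_nonneg_right (min_le_left _ _) (by positivity)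
    refine hle.trans ?_
    by_cases hh2 : h ≤ a / 2
    · exact lower_half K hK a h ha hh2 hs (by
        have := neg_le_of_abs_le hd
        linarith)
    · have := lower_half K hK a (a - h) ha (by omega) hs (by
        rw [Nat.cast_sub hh]
        have := le_of_abs_le hd
        linarith)
      rwa [Nat.choose_symm hh] at this
  · push Not at hs
    have h1 : (a : ℝ) ≤ N := by
      have h2 : (a : ℝ) ≤ 16 * K ^ 2 := by
        have := Real.sq_sqrt ha0.le
        nlinarith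
      exact h2.trans (Nat.le_ceil _)
    have h1' : a ≤ N := by exact_mod_cast h1
    have h2 : (1 : ℝ) ≤ a.choose h := by exact_mod_cast Nat.choose_pos hh
    have h3 : (1 : ℝ) ≤ Real.sqrt a := by
      rw [Real.one_le_sqrt]; exact_mod_cast ha
    refine le_trans ?_ h2
    rw [div_le_one hs0]
    refine le_trans ?_ h3
    calc min (Real.exp (-(8 * K ^ 2)) / 2) (1 / 2 ^ N) * 2 ^ a ≤ (1 / 2 ^ N) * 2 ^ a :=
          mul_le_mul_of_nonneg_right (min_le_right _ _) (by positivity)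
      _ ≤ (1 / 2 ^ N) * 2 ^ N := by
          apply mul_le_mul_of_nonneg_left _ (by positivity)
          exact pow_le_pow_right₀ (by norm_num) h1'
      _ = 1 := by field_simp

theorem bin2 (m : ℕ) (hm : 1 ≤ m) : ((2 * m).choose m : ℝ) ≤ 4 ^ m / Real.sqrt m := by
  have hm0 : (0 : ℝ) < m := by exact_mod_cast hm
  have hs : 0 < Real.sqrt m := Real.sqrt_pos.2 hm0
  rw [le_div_iff₀ hs]
  apply le_of_sq_le_sq _ (by positivity)
  rw [mul_pow, Real.sq_sqrt hm0.le]
  have h := central_upper m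
  have h' : (2 * (m : ℝ) + 1) * ((2 * m).choose m : ℝ) ^ 2 ≤ 16 ^ m := by
    unfold Nat.centralBinom at h
    exact_mod_cast h
  have e : ((4 : ℝ) ^ m) ^ 2 = 16 ^ m := by
    rw [← pow_mul, mul_comm, pow_mul]; norm_num
  rw [e]
  have hc : (0 : ℝ) ≤ ((2 * m).choose m : ℝ) ^ 2 := by positivity
  nlinarith

end Pool.Agent.L7h40.UC
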