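import Pool.Agent.L7h38.UC.Stm2
import Pool.Agent.L7h40.UC.Bin0

/-! Parts BIN and HYD of project UC. -/

set_option autoImplicit false

namespace Pool.Agent.L7h40.UC
open Pool.Agent.L7h38.UC Finset

theorem s_BIN : S_BIN := ⟨bin1, bin2⟩

/-- counting the sets of `k` positions with `h` balls of colour `0` -/
lemma count_sets {n : ℕ} (k h : ℕ) (hk : h ≤ k) (f : Fin n → Fin 2) :
    #{T ∈ powersetCard k (univ : Finset (Fin n)) | #{p ∈ T | f p = 0} = h} =
      (#{p | f p = 0}).choose h * (#{p | f p = 1}).choose (k - h) := by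
  classical
  rw [← card_powersetCard, ← card_powersetCard, ← card_product]
  have hdisj : ∀ X Y : Finset (Fin n), X ⊆ (univ.filter fun p => f p = 0) →
      Y ⊆ (univ.filter fun p => f p = 1) → Disjoint X Y := by
    intro X Y hX hY
    rw [Finset.disjoint_left]
    intro p hp hp'
    have h1 := (mem_filter.1 (hX hp)).2
    have h2 := (mem_filter.1 (hY hp')).2
    rw [h1] at h2
    exact absurd h2 (by decide)
  have hcase : ∀ p : Fin n, f p = 0 ∨ f p = 1 := fun p => by
    rcases Fin.exists_fin_two.1 ⟨f p, rfl⟩ with h | h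
    · exact Or.inl h
    · exact Or.inr h
  have hunion : ∀ T : Finset (Fin n), {p ∈ T | f p = 0} ∪ {p ∈ T | f p = 1} = T := by
    intro T
    ext p
    simp only [mem_union, mem_filter]
    rcases hcase p with h | h <;> simp [h]
  refine card_bij' (fun T _ => ({p ∈ T | f p = 0}, {p ∈ T | f p = 1}))
    (fun XY _ => XY.1 ∪ XY.2) ?_ ?_ ?_ ?_
  · intro T hT
    rw [mem_filter, mem_powersetCard] at hT
    rw [mem_product, mem_powersetCard, mem_powersetCard]
    refine ⟨⟨filter_subset_filter _ (subset_univ _), hT.2⟩,
      ⟨filter_subset_filter _ (subset_univ _), ?_⟩⟩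
    have h1 : #{p ∈ T | f p = 0} + #{p ∈ T | f p = 1} = k := by
      rw [← card_union_of_disjoint (hdisj _ _ (filter_subset_filter _ (subset_univ _))
        (filter_subset_filter _ (subset_univ _))), hunion, hT.1.2]
    have h2 := hT.2
    simp only at *
    omega
  · rintro ⟨X, Y⟩ h
    rw [mem_product, mem_powersetCard, mem_powersetCard] at h
    obtain ⟨⟨h1, h2⟩, h3, h4⟩ := h
    simp only at h1 h2 h3 h4
    rw [mem_filter, mem_powersetCard]
    refine ⟨⟨subset_univ _, ?_⟩, ?_⟩
    · rw [card_union_of_disjoint (hdisj X Y h1 h3), h2, h4]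
      omega
    · rw [← h2]
      congr 1
      ext p
      simp only [mem_filter, mem_union]
      constructor
      · rintro ⟨h | h, h'⟩
        · exact h
        · have := (mem_filter.1 (h3 h)).2
          rw [h'] at this
          exact absurd this (by decide)
      · intro h
        exact ⟨Or.inl h, (mem_filter.1 (h1 h)).2⟩
  · intro T hT
    exact hunion T
  · rintro ⟨X, Y⟩ h
    rw [mem_product, mem_powersetCard, mem_powersetCard] at h
    obtain ⟨⟨h1, h2⟩, h3, h4⟩ := h
    simp only at h1 h2 h3 h4
    have e1 : ∀ p ∈ X, f p = 0 := fun p hp => (mem_filter.1 (h1 hp)).2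
    have e2 : ∀ p ∈ Y, f p = 1 := fun p hp => (mem_filter.1 (h3 hp)).2
    have e3 : ¬ (0 : Fin 2) = 1 := by decide
    have e4 : ¬ (1 : Fin 2) = 0 := by decide
    simp only [Prod.mk.injEq]
    constructor
    · ext p
      simp only [mem_filter, mem_union]
      constructor
      · rintro ⟨h | h, h'⟩
        · exact h
        · rw [e2 p h] at h'
          exact absurd h' e4
      · intro h
        exact ⟨Or.inl h, e1 p h⟩
    · ext p
      simp only [mem_filter, mem_union]
      constructor
      · rintro ⟨h | h, h'⟩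
        · rw [e1 p h] at h'
          exact absurd h' e3
        · exact h
      · intro h
        exact ⟨Or.inr h, e2 p h⟩

theorem s_HYD : S_HYD := by
  classical
  intro n k h f hk
  unfold av
  rw [card_powersetCard, card_univ, Fintype.card_fin]
  congr 1
  rw [Finset.sum_ite, sum_const_zero, add_zero, sum_const, nsmul_eq_mul, mul_one]
  have := count_sets k h hk f
  rw [← Nat.cast_mul, ← this]
  congr 2
  apply Finset.filter_congr
  intro T _
  unfold mf
  exact Nat.cast_inj

end Pool.Agent.L7h40.UC
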