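import Pool.Agent.L7h40.UC.BIN

/-! Part LCL of project UC: the local lower bound for the urn chain with `d = 2`, `n = 2 m`, `k = m`. -/

set_option autoImplicit false

namespace Pool.Agent.L7h40.UC
open Pool.Agent.L7h38.UC Finset

lemma hyp_lower (κ : ℝ) (hκ0 : 0 < κ)
    (hκ : ∀ a h : ℕ, 1 ≤ a → h ≤ a →
      |(h : ℝ) - a / 2| ≤ 8 * Real.sqrt a → κ * 2 ^ a / Real.sqrt a ≤ (a.choose h : ℝ))
    (m a a1 h : ℕ) (hm : 400 ≤ m) (ha : a + a1 = 2 * m)
    (hd : |(a : ℝ) - m| ≤ 4 * Real.sqrt m) (hh : |(h : ℝ) - a / 2| ≤ 4 * Real.sqrt m) :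
    h ≤ m ∧ κ ^ 2 / Real.sqrt m ≤
      (a.choose h : ℝ) * (a1.choose (m - h) : ℝ) / ((2 * m).choose m : ℝ) := by
  have hm0 : (0 : ℝ) < m := by
    have : 0 < m := by omega
    exact_mod_cast this
  set s := Real.sqrt m with hs
  have hs2 : s * s = m := Real.mul_self_sqrt hm0.le
  have hs20 : 20 ≤ s := by
    rw [hs]
    apply Real.le_sqrt_of_sq_le
    have : (400 : ℝ) ≤ m := by exact_mod_cast hm
    linarith
  have haR : (a : ℝ) + a1 = 2 * m := by exact_mod_cast ha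
  obtain ⟨hd1, hd2⟩ := abs_le.1 hd
  obtain ⟨hh1, hh2⟩ := abs_le.1 hh
  have hss : 20 * s ≤ s * s := mul_le_mul_of_nonneg_right hs20 (by linarith)
  have a_big : 8 * s ≤ (a : ℝ) := by nlinarith
  have a1_big : 8 * s ≤ (a1 : ℝ) := by nlinarith
  have hhm : h ≤ m := by
    have : (h : ℝ) ≤ m := by nlinarith
    exact_mod_cast this
  have hha : h ≤ a := by
    have : (h : ℝ) ≤ a := by linarith
    exact_mod_cast this
  have hmh : ((m - h : ℕ) : ℝ) = (m : ℝ) - h := Nat.cast_sub hhm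
  have hma1 : m - h ≤ a1 := by
    have : ((m - h : ℕ) : ℝ) ≤ a1 := by rw [hmh]; linarith
    exact_mod_cast this
  have ha0 : (0 : ℝ) < a := by linarith
  have ha10 : (0 : ℝ) < a1 := by linarith
  have ha' : 1 ≤ a := by exact_mod_cast ha0
  have ha1' : 1 ≤ a1 := by exact_mod_cast ha10
  have hsa : s ≤ 2 * Real.sqrt a := by
    have h1 : (m : ℝ) ≤ 4 * a := by nlinarith
    have h2 : Real.sqrt (4 * a) = 2 * Real.sqrt a := by
      rw [show (4 : ℝ) * a = 2 ^ 2 * a by ring, Real.sqrt_mul (by norm_num),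
        Real.sqrt_sq (by norm_num)]
    rw [← h2]
    exact Real.sqrt_le_sqrt h1
  have hsa1 : s ≤ 2 * Real.sqrt a1 := by
    have h1 : (m : ℝ) ≤ 4 * a1 := by nlinarith
    have h2 : Real.sqrt (4 * a1) = 2 * Real.sqrt a1 := by
      rw [show (4 : ℝ) * a1 = 2 ^ 2 * a1 by ring, Real.sqrt_mul (by norm_num),
        Real.sqrt_sq (by norm_num)]
    rw [← h2]
    exact Real.sqrt_le_sqrt h1
  have b1 := hκ a h ha' hha (by
    rw [abs_le]; constructor <;> linarith)
  have b2 := hκ a1 (m - h) ha1' hma1 (by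
    rw [hmh, abs_le]; constructor <;> linarith)
  refine ⟨hhm, ?_⟩
  have hra : 0 < Real.sqrt a := Real.sqrt_pos.2 ha0
  have hra1 : 0 < Real.sqrt a1 := Real.sqrt_pos.2 ha10
  have hamgm : Real.sqrt a * Real.sqrt a1 ≤ m := by
    have e1 := Real.sq_sqrt ha0.le
    have e2 := Real.sq_sqrt ha10.le
    nlinarith [sq_nonneg (Real.sqrt a - Real.sqrt a1)]
  have hc := bin2 m (by omega)
  rw [← hs] at hc
  have hc0 : (0 : ℝ) < ((2 * m).choose m : ℝ) := by
    exact_mod_cast Nat.choose_pos (by omega)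
  have hs0 : 0 < s := by linarith
  have h4 : (2 : ℝ) ^ a * 2 ^ a1 = 4 ^ m := by
    rw [← pow_add, ha, pow_mul]; norm_num
  have hprod : κ ^ 2 * 4 ^ m / m ≤ (a.choose h : ℝ) * (a1.choose (m - h) : ℝ) := by
    calc κ ^ 2 * 4 ^ m / m ≤ κ ^ 2 * 4 ^ m / (Real.sqrt a * Real.sqrt a1) :=
          div_le_div_of_nonneg_left (by positivity) (by positivity) hamgm
      _ = (κ * 2 ^ a / Real.sqrt a) * (κ * 2 ^ a1 / Real.sqrt a1) := by
          rw [← h4]; field_simp
      _ ≤ _ := mul_le_mul b1 b2 (by positivity) (Nat.cast_nonneg _)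
  rw [le_div_iff₀ hc0]
  calc κ ^ 2 / s * ((2 * m).choose m : ℝ) ≤ κ ^ 2 / s * (4 ^ m / s) :=
        mul_le_mul_of_nonneg_left hc (by positivity)
    _ = κ ^ 2 * 4 ^ m / (s * s) := by field_simp
    _ = κ ^ 2 * 4 ^ m / m := by rw [hs2]
    _ ≤ _ := hprod

lemma av_prod_lower {α : Type} (U : Finset α) (ind : α → α → ℝ) (r : ℕ) (x y : ℕ → α → ℝ)
    (h : ∀ T1 T0, ∑ j ∈ range r, x j T0 * y j T1 ≤ ind T1 T0) :
    ∑ j ∈ range r, av U (x j) * av U (y j) ≤ av U fun T1 => av U fun T0 => ind T1 T0 := by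
  unfold av
  have e : ∑ j ∈ range r, (∑ t ∈ U, x j t) / (#U : ℝ) * ((∑ t ∈ U, y j t) / (#U : ℝ)) =
      (∑ T1 ∈ U, (∑ T0 ∈ U, ∑ j ∈ range r, x j T0 * y j T1) / (#U : ℝ)) / (#U : ℝ) := by
    rw [← Finset.sum_div, div_div]
    have e2 : ∑ T1 ∈ U, ∑ T0 ∈ U, ∑ j ∈ range r, x j T0 * y j T1 =
        ∑ j ∈ range r, (∑ t ∈ U, x j t) * (∑ t ∈ U, y j t) := by
      calc ∑ T1 ∈ U, ∑ T0 ∈ U, ∑ j ∈ range r, x j T0 * y j T1
          = ∑ T1 ∈ U, ∑ j ∈ range r, ∑ T0 ∈ U, x j T0 * y j T1 :=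
            Finset.sum_congr rfl fun _ _ => Finset.sum_comm
        _ = ∑ j ∈ range r, ∑ T1 ∈ U, ∑ T0 ∈ U, x j T0 * y j T1 := Finset.sum_comm
        _ = ∑ j ∈ range r, (∑ t ∈ U, x j t) * (∑ t ∈ U, y j t) := by
            refine Finset.sum_congr rfl fun j _ => ?_
            rw [Finset.sum_mul_sum, Finset.sum_comm]
    rw [e2, Finset.sum_div]
    refine Finset.sum_congr rfl fun j _ => ?_
    rw [div_mul_div_comm]
  rw [e]
  apply div_le_div_of_nonneg_right _ (Nat.cast_nonneg _)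
  apply Finset.sum_le_sum
  intro T1 _
  apply div_le_div_of_nonneg_right _ (Nat.cast_nonneg _)
  apply Finset.sum_le_sum
  intro T0 _
  exact h T1 T0

lemma split_count {n : ℕ} (f : Fin n → Fin 2) : #{p | f p = 0} + #{p | f p = 1} = n := by
  classical
  have hcase : ∀ p : Fin n, f p = 1 ↔ ¬ f p = 0 := fun p => by
    rcases Fin.exists_fin_two.1 ⟨f p, rfl⟩ with h | h <;> rw [h] <;> decide
  have h1 := Finset.card_filter_add_card_filter_not (s := (univ : Finset (Fin n)))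
    (fun p => f p = 0)
  rw [card_univ, Fintype.card_fin] at h1
  refine Eq.trans ?_ h1
  congr 2
  apply Finset.filter_congr
  intro p _
  exact hcase p

theorem s_LCL (hRES : S_RES) : S_LCL := by
  classical
  obtain ⟨κ, hκ0, hκ⟩ := bin1 8 (by norm_num)
  refine ⟨κ ^ 4 / 2, 400, by positivity, ?_⟩
  intro m hm c hc hcn b hb0 hb2 hb
  have hm0 : (0 : ℝ) < m := by
    have : 0 < m := by omega
    exact_mod_cast this
  set s := Real.sqrt m with hs
  have hs2 : s * s = m := Real.mul_self_sqrt hm0.le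
  have hs20 : 20 ≤ s := by
    rw [hs]
    apply Real.le_sqrt_of_sq_le
    have : (400 : ℝ) ≤ m := by exact_mod_cast hm
    linarith
  set a : ℕ := #{p | c 0 p = 0} with ha
  set a1 : ℕ := #{p | c 0 p = 1} with ha1
  have e1 : a + a1 = 2 * m := split_count (c 0)
  have e2 := split_count (c 1)
  have e3 : a + #{p | c 1 p = 0} = 2 * m := by
    have h := hc 0
    rw [Fin.sum_univ_two] at h
    unfold cn at h
    rw [← ha] at h
    exact_mod_cast h
  have e4 : #{p | c 1 p = 0} = a1 := by omega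
  have e5 : #{p | c 1 p = 1} = a := by omega
  have hcn' : |(a : ℝ) - m| ≤ 4 * s := by
    have h : ((cn c 0 0 : ℤ) : ℝ) = (a : ℝ) := by
      unfold cn
      rw [Int.cast_natCast]
    rw [← h]
    exact hcn
  have hcn1 : |(a1 : ℝ) - m| ≤ 4 * s := by
    have h : (a1 : ℝ) - m = -((a : ℝ) - m) := by
      have : (a : ℝ) + a1 = 2 * m := by exact_mod_cast e1
      linarith
    rw [h, abs_neg]
    exact hcn'
  set r := Nat.sqrt m with hr
  have hr1 : (r : ℝ) ≤ s := Real.nat_sqrt_le_real_sqrt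
  have hr2 : s < r + 1 := Real.real_sqrt_lt_nat_sqrt_succ
  have hsj : ∀ j ∈ range r, |(((m / 2 + j : ℕ) : ℝ)) - a / 2| ≤ 3 * s := by
    intro j hj
    have hj' : (j : ℝ) + 1 ≤ r := by exact_mod_cast (mem_range.1 hj)
    have h1 : (m : ℝ) ≤ 2 * ((m / 2 : ℕ) : ℝ) + 1 := by
      have : m ≤ 2 * (m / 2) + 1 := by omega
      exact_mod_cast this
    have h2 : 2 * ((m / 2 : ℕ) : ℝ) ≤ m := by
      have : 2 * (m / 2) ≤ m := by omega
      exact_mod_cast this
    have hj0 : (0 : ℝ) ≤ j := Nat.cast_nonneg j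
    obtain ⟨h3, h4⟩ := abs_le.1 hcn'
    push_cast
    rw [abs_le]
    constructor <;> linarith
  -- the numbers for the second urn
  have hY : ∀ j ∈ range r, ∃ h' : ℕ, (h' : ℤ) = b - a + (m / 2 + j : ℕ) ∧
      |(h' : ℝ) - a1 / 2| ≤ 4 * s := by
    intro j hj
    have h1 := hsj j hj
    have h2 : |((b - a + (m / 2 + j : ℕ) : ℤ) : ℝ) - a1 / 2| ≤ 4 * s := by
      have e6 : ((b - a + (m / 2 + j : ℕ) : ℤ) : ℝ) - a1 / 2 =
          ((b : ℝ) - m) + ((((m / 2 + j : ℕ) : ℝ)) - a / 2) := by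
        have : (a : ℝ) + a1 = 2 * m := by exact_mod_cast e1
        rw [Int.cast_add, Int.cast_sub, Int.cast_natCast, Int.cast_natCast]
        linarith
      rw [e6]
      calc |((b : ℝ) - m) + ((((m / 2 + j : ℕ) : ℝ)) - a / 2)| ≤
            |(b : ℝ) - m| + |(((m / 2 + j : ℕ) : ℝ)) - a / 2| := abs_add_le _ _
        _ ≤ 4 * s := by linarith
    have h3 : 0 ≤ b - a + (m / 2 + j : ℕ) := by
      have h4 := (abs_le.1 h2).1
      have h5 := (abs_le.1 hcn1).1
      have hss : 20 * s ≤ s * s := mul_le_mul_of_nonneg_right hs20 (by linarith)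
      have : (0 : ℝ) ≤ ((b - a + (m / 2 + j : ℕ) : ℤ) : ℝ) := by nlinarith
      exact_mod_cast this
    refine ⟨(b - a + (m / 2 + j : ℕ)).toNat, Int.toNat_of_nonneg h3, ?_⟩
    have h6 : (((b - a + (m / 2 + j : ℕ)).toNat : ℕ) : ℝ) =
        ((b - a + (m / 2 + j : ℕ) : ℤ) : ℝ) := by
      have := Int.toNat_of_nonneg h3
      rw [← Int.cast_natCast, this]
    rw [h6]
    exact h2
  choose! h' hh' hh'' using hY
  set U : Finset (Finset (Fin (2 * m))) := powersetCard m univ with hU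
  -- the two laws
  have pX : ∀ j ∈ range r, κ ^ 2 / s ≤
      av U (fun T => if mf (c 0) T 0 = ((m / 2 + j : ℕ) : ℤ) then 1 else 0) := by
    intro j hj
    obtain ⟨h1, h2⟩ := hyp_lower κ hκ0 hκ m a a1 (m / 2 + j) hm e1 hcn' (by
      have := hsj j hj
      linarith)
    have h3 := s_HYD (2 * m) m (m / 2 + j) (c 0) h1
    rw [hU, h3]
    exact h2
  have pY : ∀ j ∈ range r, κ ^ 2 / s ≤
      av U (fun T => if mf (c 1) T 0 = ((h' j : ℕ) : ℤ) then 1 else 0) := by
    intro j hj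
    obtain ⟨h1, h2⟩ := hyp_lower κ hκ0 hκ m a1 a (h' j) hm (by omega) hcn1 (hh'' j hj)
    have h3 := s_HYD (2 * m) m (h' j) (c 1) h1
    rw [hU, h3, e4, e5]
    exact h2
  have hS : ∀ S : Fin 2 → Finset (Fin (2 * m)),
      ∑ j ∈ range r, av U (fun T => if mf (c 0) T 0 = ((m / 2 + j : ℕ) : ℤ) then (1 : ℝ) else 0) *
        av U (fun T => if mf (c 1) T 0 = ((h' j : ℕ) : ℤ) then (1 : ℝ) else 0) ≤
      av U fun T1 => av U fun T0 =>
        (fun A : Mt 2 => if A 0 0 = b then (1 : ℝ) else 0)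
          (nx (Equiv.swap 0 1) c (Function.update (Function.update S 1 T1) 0 T0)) := by
    intro S
    apply av_prod_lower U _ r
      (fun j T => if mf (c 0) T 0 = ((m / 2 + j : ℕ) : ℤ) then (1 : ℝ) else 0)
      (fun j T => if mf (c 1) T 0 = ((h' j : ℕ) : ℤ) then (1 : ℝ) else 0)
    intro T1 T0
    have hnx : nx (Equiv.swap 0 1) c (Function.update (Function.update S 1 T1) 0 T0) 0 0 =
        (a : ℤ) - mf (c 0) T0 0 + mf (c 1) T1 0 := by
      unfold nx
      have hσ : (Equiv.swap (0 : Fin 2) 1)⁻¹ 0 = 1 := by decide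
      rw [hσ, Function.update_self, Function.update_of_ne (by decide), Function.update_self]
      rfl
    simp only [hnx]
    by_cases hex : ∃ j0 ∈ range r, mf (c 0) T0 0 = ((m / 2 + j0 : ℕ) : ℤ)
    · obtain ⟨j0, hj0, hm1⟩ := hex
      rw [Finset.sum_eq_single j0]
      · rw [if_pos hm1, one_mul]
        by_cases h7 : mf (c 1) T1 0 = ((h' j0 : ℕ) : ℤ)
        · rw [if_pos h7, if_pos]
          rw [h7, hm1, hh' j0 hj0]
          ring
        · rw [if_neg h7]
          split_ifs <;> norm_num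
      · intro j _ hne
        rw [if_neg, zero_mul]
        rw [hm1]
        intro h8
        apply hne
        have : m / 2 + j0 = m / 2 + j := by exact_mod_cast h8
        omega
      · intro h8
        exact absurd hj0 h8
    · rw [Finset.sum_eq_zero]
      · split_ifs <;> norm_num
      · intro j hj
        rw [if_neg, zero_mul]
        intro h8
        exact hex ⟨j, hj, h8⟩
  have hlow : κ ^ 4 / 2 / s ≤
      ∑ j ∈ range r, av U (fun T => if mf (c 0) T 0 = ((m / 2 + j : ℕ) : ℤ) then (1 : ℝ) else 0) *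
        av U (fun T => if mf (c 1) T 0 = ((h' j : ℕ) : ℤ) then (1 : ℝ) else 0) := by
    have hs0 : 0 < s := by linarith
    calc κ ^ 4 / 2 / s = (s / 2) * ((κ ^ 2 / s) * (κ ^ 2 / s)) := by field_simp
      _ ≤ r * ((κ ^ 2 / s) * (κ ^ 2 / s)) :=
          mul_le_mul_of_nonneg_right (by linarith) (by positivity)
      _ = ∑ _j ∈ range r, ((κ ^ 2 / s) * (κ ^ 2 / s)) := by
          rw [sum_const, card_range, nsmul_eq_mul]
      _ ≤ _ := by
          apply Finset.sum_le_sum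
          intro j hj
          exact mul_le_mul (pX j hj) (pY j hj) (by positivity)
            ((by positivity : (0 : ℝ) ≤ κ ^ 2 / s).trans (pX j hj))
  unfold PL
  rw [hRES 2 (2 * m) m (by omega) 0 (fun S => (fun A : Mt 2 => if A 0 0 = b then (1 : ℝ) else 0)
    (nx (Equiv.swap 0 1) c S))]
  rw [hRES 2 (2 * m) m (by omega) 1 (fun S => av (powersetCard m univ) fun T =>
    (fun A : Mt 2 => if A 0 0 = b then (1 : ℝ) else 0)
      (nx (Equiv.swap 0 1) c (Function.update S 0 T)))]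
  have hne : (Ch 2 (2 * m) m).Nonempty := by
    unfold Ch
    rw [Fintype.piFinset_nonempty]
    intro _
    rw [powersetCard_nonempty, card_univ, Fintype.card_fin]
    omega
  have hcard : (0 : ℝ) < #(Ch 2 (2 * m) m) := by exact_mod_cast hne.card_pos
  rw [av, le_div_iff₀ hcard, mul_comm, ← nsmul_eq_mul]
  apply Finset.card_nsmul_le_sum
  intro S _
  exact hlow.trans (hS S)

end Pool.Agent.L7h40.UC
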